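import Pool.Agent.helper84.ZD.SpecA

/-!
# Module BSB of project zd: trivial bounds
-/

set_option autoImplicit false

open Complex MeasureTheory

namespace Pool.Agent.ZD

open Pool.Agent.helper84.DM Pool.Agent.helper78.ED Pool.Agent.DH

lemma BSB_ee_norm (x : ℝ) : ‖ee x‖ = 1 := by
  unfold ee
  exact Complex.norm_exp_ofReal_mul_I _

lemma BSB_exp_norm (x : ℝ) : ‖Complex.exp (-(((x : ℝ) : ℂ) * I))‖ = 1 := by
  have h : -(((x : ℝ) : ℂ) * I) = ((-x : ℝ) : ℂ) * I := by push_cast; ring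
  rw [h]
  exact Complex.norm_exp_ofReal_mul_I _

lemma BSB_BX (h2 : PHS_stmt) (X u : ℝ) (hX : 0 ≤ X) : ‖BX X u‖ ≤ 64 * X := by
  obtain ⟨-, -, h01, -, -, -⟩ := h2
  unfold BX
  refine (norm_sum_le _ _).trans ?_
  have hterm : ∀ k ∈ Finset.Icc 1 ⌊64 * X⌋₊,
      ‖((Phi ((k : ℝ) / X) : ℝ) : ℂ) * (k : ℂ) ^ (-((u : ℂ) * I))‖ ≤ 1 := by
    intro k hk
    rw [Finset.mem_Icc] at hk
    rw [norm_mul, Complex.norm_natCast_cpow_of_pos (by omega)]
    have hre : (-((u : ℂ) * I)).re = 0 := by simp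
    rw [hre, Real.rpow_zero, mul_one, Complex.norm_real, Real.norm_eq_abs,
      abs_of_nonneg (h01 _).1]
    exact (h01 _).2
  refine (Finset.sum_le_card_nsmul _ _ 1 hterm).trans ?_
  rw [Nat.card_Icc, nsmul_eq_mul, mul_one]
  simp only [Nat.add_sub_cancel]
  exact Nat.floor_le (by positivity)

lemma BSB_HH (h2 : PHS_stmt) (u ξ : ℝ) : ‖HH u ξ‖ ≤ 64 := by
  obtain ⟨-, -, h01, -, hl, hr⟩ := h2
  unfold HH
  have hint : Integrable (Set.indicator (Set.Icc (1 / 2 : ℝ) 64) (fun _ => (1 : ℝ))) := by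
    rw [integrable_indicator_iff measurableSet_Icc]
    exact integrableOn_const (by simp [Real.volume_Icc]) (by simp)
  refine (norm_integral_le_of_norm_le hint (Filter.Eventually.of_forall ?_)).trans ?_
  · intro y
    show ‖((Phi y : ℝ) : ℂ) * Complex.exp (-(((u * Real.log y : ℝ) : ℂ) * I)) * ee (-(ξ * y))‖ ≤
      Set.indicator (Set.Icc (1 / 2 : ℝ) 64) (fun _ => (1 : ℝ)) y
    rw [norm_mul, norm_mul, BSB_ee_norm, BSB_exp_norm, mul_one, mul_one, Complex.norm_real,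
      Real.norm_eq_abs, abs_of_nonneg (h01 _).1]
    by_cases hy : y ∈ Set.Icc (1 / 2 : ℝ) 64
    · rw [Set.indicator_of_mem hy]
      exact (h01 _).2
    · rw [Set.indicator_of_notMem hy]
      have : y ≤ 1 / 2 ∨ 64 ≤ y := by
        by_contra hc
        rw [not_or, not_le, not_le] at hc
        exact hy ⟨hc.1.le, hc.2.le⟩
      rcases this with h | h
      · rw [hl y h]
      · rw [hr y h]
  · rw [integral_indicator measurableSet_Icc]
    simp only [integral_const, MeasurableSet.univ, measureReal_restrict_apply, Set.univ_inter,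
      smul_eq_mul, mul_one]
    rw [Real.volume_real_Icc]
    norm_num

lemma BSB_card (M : ℕ) : (MM M).card = 2 * M := by
  unfold MM
  rw [Finset.card_erase_of_mem (by rw [Finset.mem_Icc]; omega), Int.card_Icc]
  omega

lemma BSB_Bs (h1 : CHX_stmt) (h2 : PHS_stmt) (X : ℝ) (M : ℕ) (u : ℝ) (hX : 0 ≤ X) :
    ‖Bs X M u‖ ≤ 128 * X * M := by
  obtain ⟨-, -, h3⟩ := h1
  rw [h3, norm_mul, Complex.norm_real, Real.norm_eq_abs, abs_of_nonneg hX]
  have h4 : ‖∑ m ∈ MM M, HH u ((m : ℝ) * X)‖ ≤ 64 * (2 * M) := by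
    refine (norm_sum_le _ _).trans ?_
    refine (Finset.sum_le_card_nsmul _ _ 64 (fun m _ => BSB_HH h2 _ _)).trans ?_
    rw [BSB_card, nsmul_eq_mul]
    push_cast
    linarith
  calc X * ‖∑ m ∈ MM M, HH u ((m : ℝ) * X)‖ ≤ X * (64 * (2 * M)) := by gcongr
    _ = 128 * X * M := by ring

lemma BSB_zero (h1 : CHX_stmt) (h2 : PHS_stmt) (h3 : IBU_stmt) (A : ℝ) (hA : 0 < A) :
    ∃ C : ℝ, 0 < C ∧ ∀ T X : ℝ, 1 ≤ T → T ^ (1 / 2 : ℝ) ≤ X → ∀ M : ℕ,
      ‖Bs X M 0‖ ≤ C * T ^ (-A) := by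
  obtain ⟨-, -, h1c⟩ := h1
  obtain ⟨C, hC0, hC⟩ := h3 _ h2.2.1 (⌈2 * A⌉₊ + 3)
  set j : ℕ := ⌈2 * A⌉₊ + 3 with hj
  have hjA : 2 * A + 1 ≤ (j : ℝ) := by
    have := Nat.le_ceil (2 * A)
    rw [hj]; push_cast; linarith
  have hS : Summable (fun n : ℤ => 1 / (n : ℝ) ^ 2) := Real.summable_one_div_int_pow.mpr (by norm_num)
  set S : ℝ := ∑' n : ℤ, 1 / (n : ℝ) ^ 2 with hSdef
  have hS0 : 0 ≤ S := tsum_nonneg (fun n => by positivity)
  refine ⟨C * S + 1, by positivity, ?_⟩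
  intro T X hT hTX M
  have hX1 : 1 ≤ X := (Real.one_le_rpow hT (by norm_num)).trans hTX
  have hX0 : 0 < X := by linarith
  have hterm : ∀ m ∈ MM M, ‖HH 0 ((m : ℝ) * X)‖ ≤ C * (1 / X ^ j) * (1 / (m : ℝ) ^ 2) := by
    intro m hm
    have hm0 : m ≠ 0 := by
      unfold MM at hm
      exact (Finset.mem_erase.mp hm).1
    have hm1 : 1 ≤ |(m : ℝ)| := by
      have : 1 ≤ |m| := Int.one_le_abs hm0
      exact_mod_cast this
    have hb := hC 0 ((m : ℝ) * X)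
    have hb' : ‖HH 0 ((m : ℝ) * X)‖ * |(m : ℝ) * X| ^ j ≤ C := by
      have h5 : C * (1 + |(0 : ℝ)|) ^ j = C := by simp
      rw [h5] at hb
      exact hb
    rw [abs_mul, abs_of_pos hX0, mul_pow] at hb'
    have hmj : |(m : ℝ)| ^ 2 ≤ |(m : ℝ)| ^ j := pow_le_pow_right₀ hm1 (by omega)
    have hXj : 0 < X ^ j := by positivity
    have hm2 : 0 < (m : ℝ) ^ 2 := by
      have : (m : ℝ) ≠ 0 := by exact_mod_cast hm0
      positivity
    have h6 : ‖HH 0 ((m : ℝ) * X)‖ * ((m : ℝ) ^ 2 * X ^ j) ≤ C := by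
      refine le_trans ?_ hb'
      rw [sq_abs] at hmj
      gcongr
    have h7 : ‖HH 0 ((m : ℝ) * X)‖ ≤ C / ((m : ℝ) ^ 2 * X ^ j) := by
      rw [le_div_iff₀ (by positivity)]
      exact h6
    refine h7.trans (le_of_eq ?_)
    field_simp
  rw [h1c, norm_mul, Complex.norm_real, Real.norm_eq_abs, abs_of_pos hX0]
  have hsum : ‖∑ m ∈ MM M, HH 0 ((m : ℝ) * X)‖ ≤ C * (1 / X ^ j) * S := by
    refine (norm_sum_le _ _).trans ?_
    refine (Finset.sum_le_sum hterm).trans ?_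
    rw [← Finset.mul_sum]
    have : ∑ m ∈ MM M, 1 / (m : ℝ) ^ 2 ≤ S := hS.sum_le_tsum _ (fun n _ => by positivity)
    have hnn : 0 ≤ C * (1 / X ^ j) := by positivity
    exact mul_le_mul_of_nonneg_left this hnn
  have hXle : X * (1 / X ^ j) ≤ T ^ (-A) := by
    have e1 : X * (1 / X ^ j) = X ^ (1 - (j : ℝ)) := by
      rw [Real.rpow_sub hX0, Real.rpow_one, Real.rpow_natCast]
      ring
    rw [e1]
    have e2 : X ^ (1 - (j : ℝ)) ≤ X ^ (-(2 * A)) :=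
      Real.rpow_le_rpow_of_exponent_le hX1 (by linarith)
    refine e2.trans ?_
    have e3 : X ^ (-(2 * A)) ≤ (T ^ (1 / 2 : ℝ)) ^ (-(2 * A)) :=
      Real.rpow_le_rpow_of_nonpos (by positivity) hTX (by linarith)
    refine e3.trans (le_of_eq ?_)
    rw [← Real.rpow_mul (by linarith)]
    congr 1
    ring
  calc X * ‖∑ m ∈ MM M, HH 0 ((m : ℝ) * X)‖ ≤ X * (C * (1 / X ^ j) * S) := by gcongr
    _ = C * S * (X * (1 / X ^ j)) := by ring
    _ ≤ C * S * T ^ (-A) := by gcongr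
    _ ≤ (C * S + 1) * T ^ (-A) := by
        have : 0 ≤ T ^ (-A) := by positivity
        nlinarith

theorem BSB (h1 : CHX_stmt) (h2 : PHS_stmt) (h3 : IBU_stmt) : BSB_stmt :=
  ⟨BSB_BX h2, BSB_Bs h1 h2, BSB_zero h1 h2 h3⟩

end Pool.Agent.ZD
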