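import Pool.Agent.helper90.ZD.SpecB

/-!
# Module BQ0 of project zd: second moment of `rho` and `rho1`
-/

set_option autoImplicit false

open Complex MeasureTheory
open scoped ComplexOrder

namespace Pool.Agent.ZD

open Pool.Agent.helper84.DM Pool.Agent.helper78.ED Pool.Agent.DH

/-- The comparison series. -/
noncomputable def BQ0_g (n : ℤ) : ℝ := 8 * ((if n = 0 then 1 else 0) + 1 / (n : ℝ) ^ 2)

lemma BQ0_g_summable : Summable BQ0_g := by
  have h1 : Summable (fun n : ℤ => 1 / (n : ℝ) ^ 2) := Real.summable_one_div_int_pow.mpr (by norm_num)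
  have h2 : Summable (fun n : ℤ => if n = 0 then (1 : ℝ) else 0) := (hasSum_ite_eq 0 1).summable
  exact (h2.add h1).mul_left 8

lemma BQ0_g_nonneg (n : ℤ) : 0 ≤ BQ0_g n := by
  unfold BQ0_g
  split_ifs <;> positivity

lemma BQ0_exp_le (x : ℝ) : Real.exp (-x ^ 2 / 4) ≤ BQ0_g ⌊x⌋ := by
  have h1 : Real.exp (-x ^ 2 / 4) ≤ 1 := by
    rw [Real.exp_le_one_iff]
    nlinarith [sq_nonneg x]
  by_cases hn : ⌊x⌋ = 0
  · unfold BQ0_g
    rw [if_pos hn]
    have : (0 : ℝ) ≤ 1 / ((⌊x⌋ : ℤ) : ℝ) ^ 2 := by positivity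
    linarith
  · unfold BQ0_g
    rw [if_neg hn, zero_add]
    have hn0 : ((⌊x⌋ : ℤ) : ℝ) ≠ 0 := by exact_mod_cast hn
    have hn2 : 0 < ((⌊x⌋ : ℤ) : ℝ) ^ 2 := by positivity
    have hle : ((⌊x⌋ : ℤ) : ℝ) ^ 2 ≤ 8 * (1 + x ^ 2 / 4) := by
      have ha := Int.floor_le x
      have hb := Int.lt_floor_add_one x
      nlinarith [sq_nonneg (x + 1), sq_nonneg (x - 1), sq_nonneg (x - (⌊x⌋ : ℤ))]
    have hexp : 1 + x ^ 2 / 4 ≤ Real.exp (x ^ 2 / 4) := by
      have := Real.add_one_le_exp (x ^ 2 / 4)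
      linarith
    have hneg : Real.exp (-x ^ 2 / 4) = (Real.exp (x ^ 2 / 4))⁻¹ := by
      rw [← Real.exp_neg]; congr 1; ring
    rw [hneg, mul_one_div, le_div_iff₀ hn2]
    rw [inv_mul_le_iff₀ (Real.exp_pos _)]
    linarith

lemma BQ0_row (W : Finset ℝ) (hW : ∀ t ∈ W, ∀ t' ∈ W, t ≠ t' → 1 ≤ |t - t'|) (t : ℝ) :
    ∑ t' ∈ W, Real.exp (-(t - t') ^ 2 / 4) ≤ ∑' n : ℤ, BQ0_g n := by
  have hinj : Set.InjOn (fun t' : ℝ => ⌊t' - t⌋) W := by
    intro a ha b hb hab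
    by_contra hne
    have h1 := hW a ha b hb hne
    have hfa := Int.floor_le (a - t)
    have hfa' := Int.lt_floor_add_one (a - t)
    have hfb := Int.floor_le (b - t)
    have hfb' := Int.lt_floor_add_one (b - t)
    have hab' : ⌊a - t⌋ = ⌊b - t⌋ := hab
    rw [hab'] at hfa hfa'
    have : |a - b| < 1 := by
      rw [abs_lt]
      constructor <;> linarith
    linarith
  calc ∑ t' ∈ W, Real.exp (-(t - t') ^ 2 / 4) ≤ ∑ t' ∈ W, BQ0_g ⌊t' - t⌋ := by
        refine Finset.sum_le_sum (fun t' _ => ?_)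
        have h := BQ0_exp_le (t' - t)
        have e : -(t - t') ^ 2 / 4 = -(t' - t) ^ 2 / 4 := by ring
        rw [e]
        exact h
    _ = ∑ n ∈ W.image (fun t' : ℝ => ⌊t' - t⌋), BQ0_g n := by
        rw [Finset.sum_image hinj]
    _ ≤ ∑' n : ℤ, BQ0_g n := BQ0_g_summable.sum_le_tsum _ (fun n _ => BQ0_g_nonneg n)

lemma BQ0_cont (W : Finset ℝ) (c : ℝ → ℝ) :
    Continuous (fun x : ℝ => ‖∑ t ∈ W, ((c t : ℝ) : ℂ) * Complex.exp (((x * t : ℝ) : ℂ) * I)‖ ^ 2) := by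
  fun_prop

lemma BQ0_main (h : BLG_stmt) (a : ℝ) (ha : 0 < a) (W : Finset ℝ)
    (hW : ∀ t ∈ W, ∀ t' ∈ W, t ≠ t' → 1 ≤ |t - t'|) (c : ℝ → ℝ) (hc : ∀ t ∈ W, |c t| ≤ 2) :
    ∫ x in (-a)..a, ‖∑ t ∈ W, ((c t : ℝ) : ℂ) * Complex.exp (((x * t : ℝ) : ℂ) * I)‖ ^ 2 ≤
      Real.exp (a ^ 2) * (Real.sqrt Real.pi * (4 * ((W.card : ℝ) * ∑' n : ℤ, BQ0_g n))) := by
  obtain ⟨hint, heq⟩ := h ℝ W (fun t => ((c t : ℝ) : ℂ)) (fun t => t) 1 one_pos
  set F : ℝ → ℝ := fun x => ‖∑ t ∈ W, ((c t : ℝ) : ℂ) * Complex.exp (((x * t : ℝ) : ℂ) * I)‖ ^ 2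
    with hF
  have hFc : Continuous F := BQ0_cont W c
  have hbound : ∫ x : ℝ, F x * Real.exp (-(x / 1) ^ 2) ≤
      Real.sqrt Real.pi * (4 * ((W.card : ℝ) * ∑' n : ℤ, BQ0_g n)) := by
    have h0 : 0 ≤ ∫ x : ℝ, F x * Real.exp (-(x / 1) ^ 2) :=
      integral_nonneg (fun x => by positivity)
    have h1 : ∫ x : ℝ, F x * Real.exp (-(x / 1) ^ 2) =
        ‖((∫ x : ℝ, F x * Real.exp (-(x / 1) ^ 2) : ℝ) : ℂ)‖ := by
      rw [Complex.norm_real, Real.norm_eq_abs, abs_of_nonneg h0]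
    rw [h1, heq, norm_mul, Complex.norm_real, Real.norm_eq_abs, mul_one,
      abs_of_nonneg (Real.sqrt_nonneg _)]
    refine mul_le_mul_of_nonneg_left ?_ (Real.sqrt_nonneg _)
    refine (norm_sum_le _ _).trans ?_
    have hrow : ∀ t ∈ W, ‖∑ t' ∈ W, ((c t : ℝ) : ℂ) * (starRingEnd ℂ) ((c t' : ℝ) : ℂ) *
        ((Real.exp (-(1 * (t - t')) ^ 2 / 4) : ℝ) : ℂ)‖ ≤ 4 * ∑' n : ℤ, BQ0_g n := by
      intro t ht
      refine (norm_sum_le _ _).trans ?_
      calc ∑ t' ∈ W, ‖((c t : ℝ) : ℂ) * (starRingEnd ℂ) ((c t' : ℝ) : ℂ) *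
            ((Real.exp (-(1 * (t - t')) ^ 2 / 4) : ℝ) : ℂ)‖
          ≤ ∑ t' ∈ W, 4 * Real.exp (-(t - t') ^ 2 / 4) := by
            refine Finset.sum_le_sum (fun t' ht' => ?_)
            rw [norm_mul, norm_mul, RCLike.norm_conj, Complex.norm_real, Complex.norm_real,
              Complex.norm_real, Real.norm_eq_abs, Real.norm_eq_abs, Real.norm_eq_abs,
              abs_of_pos (Real.exp_pos _), one_mul]
            have hcc : |c t| * |c t'| ≤ 4 := by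
              have := hc t ht
              have := hc t' ht'
              nlinarith [abs_nonneg (c t), abs_nonneg (c t')]
            exact mul_le_mul_of_nonneg_right hcc (Real.exp_pos _).le
        _ = 4 * ∑ t' ∈ W, Real.exp (-(t - t') ^ 2 / 4) := by rw [Finset.mul_sum]
        _ ≤ 4 * ∑' n : ℤ, BQ0_g n := by
            have := BQ0_row W hW t
            linarith
    refine (Finset.sum_le_sum hrow).trans ?_
    rw [Finset.sum_const, nsmul_eq_mul]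
    linarith
  have hle : -a ≤ a := by linarith
  rw [intervalIntegral.integral_of_le hle]
  have hinton : IntegrableOn F (Set.Ioc (-a) a) :=
    (hFc.integrableOn_Icc).mono_set Set.Ioc_subset_Icc_self
  calc ∫ x in Set.Ioc (-a) a, F x
      ≤ ∫ x in Set.Ioc (-a) a, Real.exp (a ^ 2) * (F x * Real.exp (-(x / 1) ^ 2)) := by
        refine setIntegral_mono_on hinton ((hint.const_mul _).integrableOn) measurableSet_Ioc ?_
        intro x hx
        have hF0 : 0 ≤ F x := by rw [hF]; positivity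
        have hx2 : x ^ 2 ≤ a ^ 2 := by
          rw [Set.mem_Ioc] at hx
          nlinarith [hx.1, hx.2]
        have he : 1 ≤ Real.exp (a ^ 2) * Real.exp (-(x / 1) ^ 2) := by
          rw [← Real.exp_add, Real.one_le_exp_iff, div_one]
          linarith
        calc F x = F x * 1 := by ring
          _ ≤ F x * (Real.exp (a ^ 2) * Real.exp (-(x / 1) ^ 2)) := by gcongr
          _ = Real.exp (a ^ 2) * (F x * Real.exp (-(x / 1) ^ 2)) := by ring
    _ = Real.exp (a ^ 2) * ∫ x in Set.Ioc (-a) a, F x * Real.exp (-(x / 1) ^ 2) := by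
        rw [integral_const_mul]
    _ ≤ Real.exp (a ^ 2) * ∫ x : ℝ, F x * Real.exp (-(x / 1) ^ 2) := by
        refine mul_le_mul_of_nonneg_left ?_ (Real.exp_pos _).le
        exact setIntegral_le_integral hint
          (Filter.Eventually.of_forall (fun x => by
            show (0 : ℝ) ≤ F x * Real.exp (-(x / 1) ^ 2)
            positivity))
    _ ≤ _ := mul_le_mul_of_nonneg_left hbound (Real.exp_pos _).le

theorem BQ0 (h : BLG_stmt) : BQ0_stmt := by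
  intro a ha
  have hS : 0 ≤ ∑' n : ℤ, BQ0_g n := tsum_nonneg BQ0_g_nonneg
  refine ⟨2 * (Real.exp (a ^ 2) * (Real.sqrt Real.pi * (4 * (∑' n : ℤ, BQ0_g n)))) + 1,
    by positivity, ?_⟩
  intro T W hT hW
  have hW' : ∀ t ∈ W, ∀ t' ∈ W, t ≠ t' → 1 ≤ |t - t'| := by
    intro t ht t' ht' hne
    have := hW.2 t ht t' ht' hne
    rwa [Real.rpow_zero] at this
  have h1 := BQ0_main h a ha W hW' (fun _ => 1) (fun t _ => by norm_num)
  have h2 := BQ0_main h a ha W hW' (fun t => t / T) (fun t ht => by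
    have h3 := hW.1 t ht
    have hT0 : 0 < T := by linarith
    have ht0 : 0 ≤ t / T := div_nonneg (by linarith [h3.1]) hT0.le
    rw [abs_of_nonneg ht0, div_le_iff₀ hT0]
    exact h3.2)
  have e1 : ∀ x : ℝ, rho W x = ∑ t ∈ W, (((1 : ℝ) : ℝ) : ℂ) * Complex.exp (((x * t : ℝ) : ℂ) * I) := by
    intro x
    unfold rho
    refine Finset.sum_congr rfl (fun t _ => ?_)
    rw [mul_comm t x]
    simp
  have e2 : ∀ x : ℝ, rho1 T W x =
      ∑ t ∈ W, ((t / T : ℝ) : ℂ) * Complex.exp (((x * t : ℝ) : ℂ) * I) := by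
    intro x
    unfold rho1
    refine Finset.sum_congr rfl (fun t _ => ?_)
    rw [mul_comm t x]
  have hsplit : ∫ x in (-a)..a, (‖rho W x‖ ^ 2 + ‖rho1 T W x‖ ^ 2) =
      (∫ x in (-a)..a, ‖∑ t ∈ W, (((1 : ℝ) : ℝ) : ℂ) * Complex.exp (((x * t : ℝ) : ℂ) * I)‖ ^ 2) +
      ∫ x in (-a)..a, ‖∑ t ∈ W, ((t / T : ℝ) : ℂ) * Complex.exp (((x * t : ℝ) : ℂ) * I)‖ ^ 2 := by
    rw [← intervalIntegral.integral_add]
    · refine intervalIntegral.integral_congr (fun x _ => ?_)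
      show ‖rho W x‖ ^ 2 + ‖rho1 T W x‖ ^ 2 = _
      rw [e1, e2]
    · exact (BQ0_cont W (fun _ => 1)).intervalIntegrable _ _
    · exact (BQ0_cont W (fun t => t / T)).intervalIntegrable _ _
  rw [hsplit]
  have hcard : (0 : ℝ) ≤ W.card := by positivity
  calc _ ≤ Real.exp (a ^ 2) * (Real.sqrt Real.pi * (4 * ((W.card : ℝ) * ∑' n : ℤ, BQ0_g n))) +
        Real.exp (a ^ 2) * (Real.sqrt Real.pi * (4 * ((W.card : ℝ) * ∑' n : ℤ, BQ0_g n))) :=
        add_le_add h1 h2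
    _ = 2 * (Real.exp (a ^ 2) * (Real.sqrt Real.pi * (4 * (∑' n : ℤ, BQ0_g n)))) * (W.card : ℝ) := by
        ring
    _ ≤ _ := by
        gcongr
        linarith

end Pool.Agent.ZD
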