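import Pool.Agent.helper86.ZD.SpecC
import Pool.Agent.helper1.DH.CLB

/-! Module CTAY of project zd (MP_4467b5_nt). -/

set_option autoImplicit false

open Complex MeasureTheory

namespace Pool.Agent.ZD

open Pool.Agent.helper84.DM Pool.Agent.helper78.ED Pool.Agent.DH

theorem CTAY (hA : CALL_stmt) (hT : TAY_stmt) : CTAY_stmt := by
  intro ε δ hε hδ hδ4
  obtain ⟨κ, hκ, hκ1, hcl⟩ := hA (ε / 2) δ (by linarith) hδ hδ4
  refine ⟨κ, hκ, hκ1, ?_⟩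
  intro C₁ hC₁
  obtain ⟨C, T₀, hC, hcl⟩ := hcl C₁ hC₁
  obtain ⟨T₁, hty⟩ := hT C₁ hC₁
  refine ⟨(16 / ε + 1) * C, max (max T₀ T₁) 16, by positivity, ?_⟩
  intro T hT0 σ hσ hσ1 c hc N hN1 hN2 Z hZ hlarge
  have hT16 : (16 : ℝ) ≤ T := (le_max_right _ _).trans hT0
  have hTT0 : T₀ ≤ T := ((le_max_left _ _).trans (le_max_left _ _)).trans hT0
  have hTT1 : T₁ ≤ T := ((le_max_right _ _).trans (le_max_left _ _)).trans hT0
  have hTp : 0 < T := by linarith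
  have hT1 : 1 ≤ T := by linarith
  have hNpos : 1 ≤ N := by
    have h0 : 0 < T ^ δ / 2 := by positivity
    have : (0 : ℝ) < N := lt_of_lt_of_le h0 hN1
    exact_mod_cast this
  have hN2T : 2 * (N : ℝ) ≤ T := by
    have h1 : (N : ℝ) ≤ T ^ (3 / 4 : ℝ) :=
      hN2.trans (Real.rpow_le_rpow_of_exponent_le hT1 (by linarith))
    have h2 : (2 : ℝ) ≤ T ^ (1 / 4 : ℝ) := by
      have h3 : (16 : ℝ) ^ (1 / 4 : ℝ) = 2 := by
        rw [show (16 : ℝ) = 2 ^ (4 : ℝ) by norm_num, ← Real.rpow_mul (by norm_num)]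
        norm_num
      rw [← h3]
      exact Real.rpow_le_rpow (by norm_num) hT16 (by norm_num)
    have h4 : T ^ (1 / 4 : ℝ) * T ^ (3 / 4 : ℝ) = T := by
      rw [← Real.rpow_add hTp]; norm_num
    have h5 : 0 ≤ T ^ (3 / 4 : ℝ) := by positivity
    calc 2 * (N : ℝ) ≤ T ^ (1 / 4 : ℝ) * T ^ (3 / 4 : ℝ) :=
          mul_le_mul h2 h1 (by positivity) (by positivity)
      _ = T := h4
  have hNT : (N : ℝ) ≤ T := by
    have : (0 : ℝ) ≤ N := Nat.cast_nonneg N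
    linarith
  have hcn : ∀ n ∈ Finset.Ioc N (2 * N), ‖c n‖ ≤ C₁ * T ^ κ := by
    intro n hn
    rw [Finset.mem_Ioc] at hn
    apply hc n (by omega)
    have : (n : ℝ) ≤ 2 * N := by exact_mod_cast hn.2
    linarith
  set a : ℕ → ℕ → ℂ := fun j n => c n * ((((N : ℝ) / n) ^ σ * Real.log ((n : ℝ) / N) ^ j : ℝ) : ℂ)
    with ha
  have han : ∀ j, ∀ n ∈ Finset.Ioc N (2 * N), ‖a j n‖ ≤ C₁ * T ^ κ := by
    intro j n hn
    exact (CLB_coef N n j σ (by linarith) hNpos hn (c n)).trans (hcn n hn)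
  classical
  set J : ℕ := ⌊8 * Real.log T⌋₊ + 1 with hJ
  set W : ℕ → Finset ℂ := fun j => Z.filter (fun ρ => (N : ℝ) ^ σ / (4 * C₁ * Real.log T) ≤
    ‖DP N (a j) ρ.im‖) with hW
  have hWsub : ∀ j, W j ⊆ Z := fun j => Finset.filter_subset _ _
  have hcov : Z ⊆ (Finset.range J).biUnion W := by
    intro ρ hρ
    have hz := hZ ρ hρ
    have hre1 : ρ.re ≤ 1 := by
      by_contra hcon
      push Not at hcon
      exact riemannZeta_ne_zero_of_one_le_re hcon.le hz.1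
    obtain ⟨j, hj, hjl⟩ := hty T κ σ hTT1 hκ.le hκ1 (by linarith) c N hNpos hNT hcn ρ hz.2.1 hre1
      (hlarge ρ hρ)
    rw [Finset.mem_biUnion]
    exact ⟨j, hj, Finset.mem_filter.2 ⟨hρ, hjl⟩⟩
  have hcard : ∀ j, ((W j).card : ℝ) ≤ C * T ^ (39 / 17 * (1 - σ) + ε / 2 + 4 * δ) := by
    intro j
    apply hcl T hTT0 σ hσ hσ1 N hN1 hN2 (a j) (han j) (W j)
    · exact fun ρ hρ => hZ ρ (hWsub j hρ)
    · intro ρ hρ
      exact (Finset.mem_filter.1 hρ).2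
  have hsum : (Z.card : ℝ) ≤ ∑ j ∈ Finset.range J, ((W j).card : ℝ) := by
    have h1 : Z.card ≤ ∑ j ∈ Finset.range J, (W j).card :=
      (Finset.card_le_card hcov).trans Finset.card_biUnion_le
    exact_mod_cast h1
  have hJle : (J : ℝ) ≤ (16 / ε + 1) * T ^ (ε / 2) := by
    have hlog : 0 ≤ Real.log T := Real.log_nonneg hT1
    have h1 : ((⌊8 * Real.log T⌋₊ : ℕ) : ℝ) ≤ 8 * Real.log T := Nat.floor_le (by positivity)
    have h2 : Real.log T ≤ T ^ (ε / 2) / (ε / 2) := Real.log_le_rpow_div hTp.le (by positivity)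
    have h3 : 1 ≤ T ^ (ε / 2) := Real.one_le_rpow hT1 (by positivity)
    have h4 : T ^ (ε / 2) / (ε / 2) = 2 / ε * T ^ (ε / 2) := by field_simp
    rw [h4] at h2
    calc (J : ℝ) = ((⌊8 * Real.log T⌋₊ : ℕ) : ℝ) + 1 := by rw [hJ]; push_cast; ring
      _ ≤ 8 * (2 / ε * T ^ (ε / 2)) + T ^ (ε / 2) := by linarith
      _ = _ := by ring
  have hTe : T ^ (ε / 2) * T ^ (39 / 17 * (1 - σ) + ε / 2 + 4 * δ) =
      T ^ (39 / 17 * (1 - σ) + ε + 4 * δ) := by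
    rw [← Real.rpow_add hTp]; congr 1; ring
  calc (Z.card : ℝ) ≤ ∑ j ∈ Finset.range J, ((W j).card : ℝ) := hsum
    _ ≤ ∑ _j ∈ Finset.range J, C * T ^ (39 / 17 * (1 - σ) + ε / 2 + 4 * δ) :=
        Finset.sum_le_sum fun j _ => hcard j
    _ = J * (C * T ^ (39 / 17 * (1 - σ) + ε / 2 + 4 * δ)) := by
        rw [Finset.sum_const, Finset.card_range, nsmul_eq_mul]
    _ ≤ ((16 / ε + 1) * T ^ (ε / 2)) * (C * T ^ (39 / 17 * (1 - σ) + ε / 2 + 4 * δ)) :=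
        mul_le_mul_of_nonneg_right hJle (by positivity)
    _ = (16 / ε + 1) * C * (T ^ (ε / 2) * T ^ (39 / 17 * (1 - σ) + ε / 2 + 4 * δ)) := by ring
    _ = _ := by rw [hTe]

end Pool.Agent.ZD
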